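import Pool.Agent.H12.KP.Targets4

/-!
# Successive approximation (row ITER of kpi_modules)
-/

set_option autoImplicit false

namespace Pool.Agent.H4.KP

open Pool.Agent.H12.KP Polynomial TensorProduct

universe u v

/-- the invariant of the iteration -/
def Inv {A : Type u} {B0 B1 B01 : Type v} [CommRing A] [CommRing B0] [CommRing B1]
    [CommRing B01] [Algebra A B0] [Algebra A B1] [Algebra A B01] (C : Charts A B0 B1 B01)
    (π : A) (b c : B0) (N n0 q k : ℕ) (x : B0 × B1) : Prop :=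
  algebraMap A B01 π ^ (n0 + k) ∣ C.i0 b * (C.i0 C.T ^ N * C.i1 x.2) ^ q -
      C.i0 (b + algebraMap A B0 π ^ n0 * c) * C.i0 x.1 ^ q ∧
    algebraMap A B01 π ∣ C.i0 x.1 - 1 ∧ algebraMap A B01 π ∣ C.i0 C.T ^ N * C.i1 x.2 - 1

theorem dvd_pow_sub_one {R : Type v} [CommRing R] {P X : R} (h : P ∣ X - 1) (m : ℕ) :
    ∃ y, X ^ m = 1 + P * y := by
  have h1 : X - 1 ∣ X ^ m - 1 := by
    have := sub_dvd_pow_sub_pow X 1 m
    rwa [one_pow] at this
  obtain ⟨y, hy⟩ := h.trans h1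
  exact ⟨y, by linear_combination hy⟩

theorem iter_step (hBIN : S_BIN.{v}) {A : Type u} {B0 B1 B01 : Type v} [CommRing A]
    [CommRing B0] [CommRing B1] [CommRing B01] [Algebra A B0] [Algebra A B1] [Algebra A B01]
    (C : Charts A B0 B1 B01) (p : ℕ) (hp : p.Prime) (π ε : A) (e a r : ℕ)
    (hpe : (p : A) = ε * π ^ e) (hε : IsUnit ε) (ha : 1 ≤ a) (hea : e < a * (p - 1))
    (b c : B0) (N : ℕ) (hb : ∃ b' : B01, algebraMap A B01 π ∣ C.i0 b * b' - 1)
    (hsp : ∀ z : B01, ∃ z0 z1, z = C.i0 z0 + C.i0 C.T ^ N * C.i1 z1) (k : ℕ) (x : B0 × B1)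
    (hx : Inv C π b c N (r * e + a) (p ^ r) k x) :
    ∃ x' : B0 × B1, Inv C π b c N (r * e + a) (p ^ r) (k + 1) x' ∧
      algebraMap A B0 π ^ (a + k) ∣ x'.1 - x.1 ∧ algebraMap A B1 π ^ (a + k) ∣ x'.2 - x.2 := by
  obtain ⟨⟨E', hE'⟩, ⟨w, hw⟩, ⟨y, hy⟩⟩ := hx
  obtain ⟨b', b1, hb1⟩ := hb
  obtain ⟨η, hη⟩ : ∃ η : A, ε * η = 1 := hε.exists_right_inv
  have hεr : algebraMap A B01 ε ^ r * algebraMap A B01 η ^ r = 1 := by
    rw [← mul_pow, ← map_mul, hη, map_one, one_pow]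
  obtain ⟨e0, e1, he⟩ := hsp (algebraMap A B01 η ^ r * b' * E')
  have hpB : (p : B01) = algebraMap A B01 ε * algebraMap A B01 π ^ e := by
    rw [← map_pow, ← map_mul, ← hpe, map_natCast]
  set P := algebraMap A B01 π with hP
  set ee := algebraMap A B01 ε with hee
  set hh := algebraMap A B01 η with hhh
  set X := C.i0 C.T ^ N * C.i1 x.2 with hX
  set W := C.i0 x.1 with hW
  set B := C.i0 b with hB
  set T1 := C.i0 C.T ^ N * C.i1 e1 with hT1
  have hBc : C.i0 (b + algebraMap A B0 π ^ (r * e + a) * c) = B + P ^ (r * e + a) * C.i0 c := by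
    rw [map_add, map_mul, map_pow, AlgHom.commutes]
  rw [hBc] at hE'
  obtain ⟨z1, hz1⟩ := hBIN B01 p hp P ee e a hpB ha hea r (a + k) (Nat.le_add_right _ _) X (-T1)
  obtain ⟨z2, hz2⟩ := hBIN B01 p hp P ee e a hpB ha hea r (a + k) (Nat.le_add_right _ _) W
    (C.i0 e0)
  obtain ⟨x1, hx1⟩ := dvd_pow_sub_one (P := P) (X := X) ⟨y, hy⟩ (p ^ r - 1)
  obtain ⟨w1, hw1⟩ := dvd_pow_sub_one (P := P) (X := W) ⟨w, hw⟩ (p ^ r - 1)
  have hX' : C.i0 C.T ^ N * C.i1 (x.2 - algebraMap A B1 π ^ (a + k) * e1) =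
      X + P ^ (a + k) * (-T1) := by
    rw [map_sub, map_mul, map_pow, AlgHom.commutes, hX, hT1]
    ring
  have hW' : C.i0 (x.1 + algebraMap A B0 π ^ (a + k) * e0) = W + P ^ (a + k) * C.i0 e0 := by
    rw [map_add, map_mul, map_pow, AlgHom.commutes]
  have hk : a + k + r * e = r * e + a + k := by ring
  rw [hk] at hz1 hz2
  obtain ⟨n1, hn1⟩ : ∃ n1, r * e + a = n1 + 1 := ⟨r * e + a - 1, by omega⟩
  obtain ⟨a1, ha1⟩ : ∃ a1, a + k = a1 + 1 := ⟨a + k - 1, by omega⟩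
  have hPn : P ^ (r * e + a) = P * P ^ n1 := by rw [hn1, pow_succ, mul_comm]
  have hPa : P ^ (a + k) = P * P ^ a1 := by rw [ha1, pow_succ, mul_comm]
  refine ⟨(x.1 + algebraMap A B0 π ^ (a + k) * e0, x.2 - algebraMap A B1 π ^ (a + k) * e1),
    ⟨?_, ?_, ?_⟩, ?_, ?_⟩
  · dsimp only
    rw [hX', hW', hz1, hz2, hBc, hx1, hw1]
    refine ⟨-(b1 * E') - B * ee ^ r * x1 * T1 - P ^ n1 * C.i0 c * ee ^ r * (1 + P * w1) * C.i0 e0
      - B * ee ^ r * w1 * C.i0 e0 + (B * z1 - (B + P ^ (r * e + a) * C.i0 c) * z2), ?_⟩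
    have h1 : P ^ (r * e + a + (k + 1)) = P ^ (r * e + a + k) * P := by
      rw [← add_assoc, pow_succ]
    rw [h1]
    have h2 : B * ee ^ r * (C.i0 e0 + T1) = B * b' * E' := by
      rw [← he]
      linear_combination B * b' * E' * hεr
    generalize hPk : P ^ (r * e + a + k) = Q at *
    rw [hPn] at hE' ⊢
    linear_combination hE' - Q * h2 - Q * E' * hb1
  · dsimp only
    rw [hW', hPa]
    exact ⟨w + P ^ a1 * C.i0 e0, by linear_combination hw⟩
  · dsimp only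
    rw [hX', hPa]
    exact ⟨y - P ^ a1 * T1, by linear_combination hy⟩
  · exact ⟨e0, by ring⟩
  · exact ⟨-e1, by ring⟩

theorem pf_ITER (hBIN : S_BIN.{v}) : S_ITER.{u, v} := by
  intro A B0 B1 B01 _ _ _ _ _ _ _ C p hp π ε e a r hpe hε ha hea b c N hb hsp
  have hstep := iter_step hBIN C p hp π ε e a r hpe hε ha hea b c N hb hsp
  have hinit : Inv C π b c N (r * e + a) (p ^ r) 0 (1, C.S ^ N) := by
    have h1 : C.i0 C.T ^ N * C.i1 (C.S ^ N) = 1 := by
      rw [map_pow, ← mul_pow, C.hTS, one_pow]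
    refine ⟨?_, ?_, ?_⟩
    · dsimp only
      rw [h1, map_one, one_pow, map_add, map_mul, map_pow, AlgHom.commutes]
      exact ⟨-C.i0 c, by ring⟩
    · simp
    · dsimp only
      rw [h1]
      simp
  choose! F hF using hstep
  let G : (k : ℕ) → B0 × B1 := fun k => Nat.rec (1, C.S ^ N) (fun k x => F k x) k
  have hG : ∀ k, Inv C π b c N (r * e + a) (p ^ r) k (G k) := by
    intro k
    induction k with
    | zero => exact hinit
    | succ k ih => exact (hF k (G k) ih).1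
  refine ⟨fun k => (G k).1, fun k => (G k).2, rfl, rfl, fun k => (hF k (G k) (hG k)).2.1,
    fun k => (hF k (G k) (hG k)).2.2, fun k => (hG k).1⟩

end Pool.Agent.H4.KP
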